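import Mathlib

/-!
# A Helly type lemma for tuples of vectors

Approximation of a tuple of functionals on the dual space by a tuple of vectors, with control of
the norms of all sums with signs.
-/

set_option autoImplicit false

open Set Finset

namespace Pool.Agent.X304.Ec

/-- the sign `±1` of a truth value -/
def sg (b : Bool) : ℝ := if b then 1 else -1

lemma sg_mul_self (b : Bool) : sg b * sg b = 1 := by cases b <;> simp [sg]

lemma abs_sg (b : Bool) : |sg b| = 1 := by cases b <;> simp [sg]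

lemma sum_sg : ∑ b : Bool, sg b = 0 := by simp [sg]

variable {Y : Type*} [NormedAddCommGroup Y] [NormedSpace ℝ Y]

/-- the sum with signs -/
noncomputable def ssum {m : ℕ} (e : Fin m → Bool) (z : Fin m → Y) : Y := ∑ k, sg (e k) • z k

lemma dual_pi {ι : Type*} [Fintype ι] [DecidableEq ι] (Ψ : StrongDual ℝ (ι → Y)) :
    ∑ i, ‖Ψ.comp (ContinuousLinearMap.single ℝ (fun _ : ι => Y) i)‖ ≤ ‖Ψ‖ := by
  classical
  apply le_of_forall_pos_le_add
  intro η hη
  -- near norming vectors
  have hc : (0 : ℝ) < (Fintype.card ι : ℝ) + 1 := by positivity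
  have h1 : ∀ i, ∃ y : Y, ‖y‖ ≤ 1 ∧
      ‖Ψ.comp (ContinuousLinearMap.single ℝ (fun _ : ι => Y) i)‖ - η / ((Fintype.card ι : ℝ) + 1) ≤
        Ψ (Pi.single i y) := by
    intro i
    by_contra hcon
    push Not at hcon
    set Φ := Ψ.comp (ContinuousLinearMap.single ℝ (fun _ : ι => Y) i) with hΦ
    have h2 : ∀ y : Y, ‖y‖ ≤ 1 → Φ y < ‖Φ‖ - η / ((Fintype.card ι : ℝ) + 1) := by
      intro y hy
      exact hcon y hy
    have h3 : 0 < ‖Φ‖ - η / ((Fintype.card ι : ℝ) + 1) := by
      have := h2 0 (by simp)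
      simpa using this
    have h4 : ‖Φ‖ ≤ ‖Φ‖ - η / ((Fintype.card ι : ℝ) + 1) := by
      apply ContinuousLinearMap.opNorm_le_of_unit_norm h3.le
      intro y hy
      rw [Real.norm_eq_abs, abs_le]
      constructor
      · have := h2 (-y) (by simp [hy])
        rw [map_neg] at this
        linarith
      · exact (h2 y hy.le).le
    have h5 : 0 < η / ((Fintype.card ι : ℝ) + 1) := by positivity
    linarith
  choose y hy1 hy2 using h1
  have h6 : ∑ i, Ψ (Pi.single i (y i)) = Ψ y := by
    rw [← map_sum]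
    congr 1
    exact Finset.univ_sum_single y
  have h7 : ‖y‖ ≤ 1 := (pi_norm_le_iff_of_nonneg zero_le_one).2 hy1
  have h8 : Ψ y ≤ ‖Ψ‖ := by
    have := Ψ.le_opNorm y
    have h9 := le_abs_self (Ψ y)
    rw [← Real.norm_eq_abs] at h9
    calc Ψ y ≤ ‖Ψ y‖ := h9
      _ ≤ ‖Ψ‖ * ‖y‖ := this
      _ ≤ ‖Ψ‖ * 1 := by gcongr
      _ = ‖Ψ‖ := mul_one _
  have h9 : ∑ i, (‖Ψ.comp (ContinuousLinearMap.single ℝ (fun _ : ι => Y) i)‖ -
      η / ((Fintype.card ι : ℝ) + 1)) ≤ ‖Ψ‖ := by
    calc _ ≤ ∑ i, Ψ (Pi.single i (y i)) := Finset.sum_le_sum fun i _ => hy2 i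
      _ = Ψ y := h6
      _ ≤ _ := h8
  rw [Finset.sum_sub_distrib] at h9
  have h10 : ∑ i : ι, η / ((Fintype.card ι : ℝ) + 1) ≤ η := by
    rw [Finset.sum_const, Finset.card_univ, nsmul_eq_mul, mul_div_assoc', div_le_iff₀ hc]
    nlinarith
  linarith

/-- **A Helly type lemma.** -/
theorem helly {m n : ℕ} (S : StrongDual ℝ Y →ₗ[ℝ] (Fin m → ℝ)) (a : ℝ) (ha : 0 ≤ a)
    (hS : ∀ (e : Fin m → Bool) (φ : StrongDual ℝ Y), ∑ k, sg (e k) * S φ k ≤ a * ‖φ‖)
    (φ : Fin n → StrongDual ℝ Y) (M : ℝ) (hM : a < M) (δ : ℝ) (hδ : 0 < δ) :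
    ∃ z : Fin m → Y, (∀ e, ‖ssum e z‖ ≤ M) ∧ ∀ j k, |φ j (z k) - S (φ j) k| < δ := by
  classical
  have hM0 : 0 < M := lt_of_le_of_lt ha hM
  let K : Set (Fin m → Y) := {z | ∀ e, ‖ssum e z‖ ≤ M}
  let Λ : (Fin m → Y) →ₗ[ℝ] (Fin n → Fin m → ℝ) :=
    LinearMap.pi fun j => LinearMap.pi fun k => (φ j).toLinearMap ∘ₗ LinearMap.proj k
  have hK : Convex ℝ K := by
    intro x hx y hy s t hs ht hst e
    have h1 : ssum e (s • x + t • y) = s • ssum e x + t • ssum e y := by
      simp only [ssum, Pi.add_apply, Pi.smul_apply, Finset.smul_sum, ← Finset.sum_add_distrib]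
      refine Finset.sum_congr rfl fun k _ => ?_
      rw [smul_add, smul_comm, smul_comm (sg (e k)) t]
    rw [h1]
    calc ‖s • ssum e x + t • ssum e y‖ ≤ ‖s • ssum e x‖ + ‖t • ssum e y‖ := norm_add_le _ _
      _ = s * ‖ssum e x‖ + t * ‖ssum e y‖ := by
        rw [norm_smul, norm_smul, Real.norm_of_nonneg hs, Real.norm_of_nonneg ht]
      _ ≤ s * M + t * M := by gcongr; exacts [hx e, hy e]
      _ = M := by rw [← add_mul, hst, one_mul]
  have hΛK : Convex ℝ (Λ '' K) := hK.linear_image Λ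
  let s : Fin n → Fin m → ℝ := fun j k => S (φ j) k
  by_cases hs : s ∈ closure (Λ '' K)
  · obtain ⟨x, ⟨z, hz, rfl⟩, hx⟩ := Metric.mem_closure_iff.1 hs δ hδ
    refine ⟨z, hz, fun j k => ?_⟩
    have h1 : dist (s j k) (Λ z j k) ≤ dist s (Λ z) :=
      (dist_le_pi_dist (s j) (Λ z j) k).trans (dist_le_pi_dist s (Λ z) j)
    have h2 := h1.trans_lt hx
    rw [Real.dist_eq, abs_sub_comm] at h2
    exact h2
  exfalso
  obtain ⟨f, u, hf1, hf2⟩ := geometric_hahn_banach_closed_point hΛK.closure isClosed_closure hs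
  -- the coefficients of f
  let c : Fin n → Fin m → ℝ := fun j k => f (Pi.single j (Pi.single k 1))
  have hfc : ∀ x : Fin n → Fin m → ℝ, f x = ∑ k, ∑ j, c j k * x j k := by
    intro x
    rw [Finset.sum_comm]
    have h1 : x = ∑ j, ∑ k, x j k • (Pi.single j (Pi.single k 1) : Fin n → Fin m → ℝ) := by
      funext j k
      simp only [Finset.sum_apply, Pi.smul_apply, smul_eq_mul]
      rw [Finset.sum_eq_single j, Finset.sum_eq_single k]
      · simp
      · intro k' _ hk'
        simp [Pi.single_apply, hk'.symm]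
      · simp
      · intro j' _ hj'
        simp [Pi.single_apply, hj'.symm]
      · simp
    conv_lhs => rw [h1]
    simp only [map_sum, map_smul, smul_eq_mul]
    refine Finset.sum_congr rfl fun j _ => Finset.sum_congr rfl fun k _ => ?_
    simp only [c]
    ring
  let ψ : Fin m → StrongDual ℝ Y := fun k => ∑ j, c j k • φ j
  have hfΛ : ∀ z, f (Λ z) = ∑ k, ψ k (z k) := by
    intro z
    rw [hfc]
    refine Finset.sum_congr rfl fun k _ => ?_
    simp [ψ, Λ, _root_.sum_apply]
  have hfs : f s = ∑ k, S (ψ k) k := by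
    rw [hfc]
    refine Finset.sum_congr rfl fun k _ => ?_
    simp [ψ, s, map_sum, Finset.sum_apply]
  have hlt : ∀ z ∈ K, ∑ k, ψ k (z k) < u := by
    intro z hz
    rw [← hfΛ]
    exact hf1 _ (subset_closure ⟨z, hz, rfl⟩)
  have hu : 0 < u := by
    have := hlt 0 (by intro e; simp [ssum, hM0.le])
    simpa using this
  -- the embedding in the space of functions of the signs
  let W := (Fin m → Bool) → Y
  let N : ℝ := ((2 : ℝ) ^ m)⁻¹
  let J : (Fin m → Y) →ₗ[ℝ] W := LinearMap.pi fun e =>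
    { toFun := fun z => ssum e z
      map_add' := by intro x y; simp [ssum, Finset.sum_add_distrib]
      map_smul' := by
        intro t x
        simp only [ssum, Pi.smul_apply, Finset.smul_sum, RingHom.id_apply]
        exact Finset.sum_congr rfl fun k _ => by rw [smul_comm] }
  have horth : ∀ k l : Fin m, ∑ e : Fin m → Bool, sg (e k) * sg (e l) = if k = l then 2 ^ m else 0 := by
    intro k l
    split_ifs with h
    · subst h
      simp [sg_mul_self]
    · have h1 : ∀ e : Fin m → Bool, sg (e k) * sg (e l) =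
          ∏ i, (if i = k then sg (e i) else if i = l then sg (e i) else 1) := by
        intro e
        rw [← Finset.mul_prod_erase _ _ (Finset.mem_univ k),
          ← Finset.mul_prod_erase _ _ (Finset.mem_erase.2 ⟨Ne.symm h, Finset.mem_univ l⟩)]
        rw [Finset.prod_eq_one]
        · simp [Ne.symm h]
        · intro i hi
          simp only [Finset.mem_erase, Finset.mem_univ, and_true, ne_eq] at hi
          simp [hi.1, hi.2]
      rw [Finset.sum_congr rfl fun e _ => h1 e]
      have h2 := (Finset.prod_univ_sum (fun _ : Fin m => (Finset.univ : Finset Bool))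
        (fun (i : Fin m) (b : Bool) => (if i = k then sg b else if i = l then sg b else (1 : ℝ)))).symm
      rw [Fintype.piFinset_univ] at h2
      rw [h2]
      exact Finset.prod_eq_zero (Finset.mem_univ k) (by simp only [if_true]; exact sum_sg)
  let r : W →L[ℝ] (Fin m → Y) := ContinuousLinearMap.pi fun k =>
    N • ∑ e, sg (e k) • ContinuousLinearMap.proj (R := ℝ) (φ := fun _ : Fin m → Bool => Y) e
  have hrJ : ∀ z, r (J z) = z := by
    intro z
    funext k
    have h1 : r (J z) k = N • ∑ e : Fin m → Bool, sg (e k) • ssum e z := by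
      simp only [r, ContinuousLinearMap.coe_pi', ContinuousLinearMap.smul_apply, _root_.sum_apply,
        ContinuousLinearMap.proj_apply]
      rfl
    rw [h1]
    have h2 : ∑ e : Fin m → Bool, sg (e k) • ssum e z = ∑ l, (∑ e : Fin m → Bool, sg (e k) * sg (e l)) • z l := by
      simp only [ssum, Finset.smul_sum, Finset.sum_smul, smul_smul]
      rw [Finset.sum_comm]
    rw [h2]
    simp only [horth]
    rw [Finset.sum_eq_single k]
    · simp only [if_true, smul_smul, N]
      rw [inv_mul_cancel₀ (by positivity), one_smul]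
    · intro l _ hl
      simp [Ne.symm hl]
    · simp
  let lam : StrongDual ℝ W := ∑ k, (ψ k).comp ((ContinuousLinearMap.proj (R := ℝ) (φ := fun _ : Fin m => Y) k).comp r)
  have hlam : ∀ z, lam (J z) = ∑ k, ψ k (z k) := by
    intro z
    simp only [lam, _root_.sum_apply, ContinuousLinearMap.comp_apply, ContinuousLinearMap.proj_apply]
    rw [hrJ]
  let p : Submodule ℝ W := LinearMap.range J
  have hJnorm : ∀ z, (∀ e, ‖ssum e z‖ ≤ ‖J z‖) := fun z e => norm_le_pi_norm (J z) e
  have hres : ‖lam.comp p.subtypeL‖ ≤ u / M := by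
    apply ContinuousLinearMap.opNorm_le_bound _ (by positivity)
    rintro ⟨w, z, rfl⟩
    change ‖lam (J z)‖ ≤ u / M * ‖J z‖
    rw [hlam]
    -- homogeneity
    have key : ∀ z : Fin m → Y, ∑ k, ψ k (z k) ≤ u / M * ‖J z‖ := by
      intro z
      by_cases h0 : ‖J z‖ = 0
      · rw [h0, mul_zero]
        have hz : z = 0 := by
          rw [← hrJ z, norm_eq_zero.1 h0, map_zero]
        simp [hz]
      · have hpos : 0 < ‖J z‖ := lt_of_le_of_ne (norm_nonneg _) (Ne.symm h0)
        have h1 := hlt ((M / ‖J z‖) • z) (by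
          intro e
          have h2 : ssum e ((M / ‖J z‖) • z) = (M / ‖J z‖) • ssum e z := by
            simp only [ssum, Pi.smul_apply, Finset.smul_sum]
            exact Finset.sum_congr rfl fun k _ => by rw [smul_comm]
          rw [h2, norm_smul, Real.norm_of_nonneg (by positivity)]
          calc M / ‖J z‖ * ‖ssum e z‖ ≤ M / ‖J z‖ * ‖J z‖ := by gcongr; exact hJnorm z e
            _ = M := by field_simp)
        have h2 : ∑ k, ψ k (((M / ‖J z‖) • z) k) = (M / ‖J z‖) * ∑ k, ψ k (z k) := by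
          simp [Finset.mul_sum]
        rw [h2] at h1
        have h3 : ∑ k, ψ k (z k) ≤ u / M * ‖J z‖ := by
          have h4 : (M / ‖J z‖) * ∑ k, ψ k (z k) ≤ u := h1.le
          rw [div_mul_eq_mul_div, div_le_iff₀ hpos] at h4
          rw [div_mul_eq_mul_div, le_div_iff₀ hM0]
          linarith
        exact h3
    rw [Real.norm_eq_abs, abs_le]
    constructor
    · have := key (-z)
      simp only [Pi.neg_apply, map_neg, Finset.sum_neg_distrib, norm_neg] at this
      linarith
    · exact key z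
  obtain ⟨Ψ, hΨ1, hΨ2⟩ := exists_extension_norm_eq p (lam.comp p.subtypeL)
  have hΨ3 : ‖Ψ‖ ≤ u / M := hΨ2 ▸ hres
  have hΨJ : ∀ z, Ψ (J z) = ∑ k, ψ k (z k) := by
    intro z
    rw [← hlam]
    exact hΨ1 ⟨J z, z, rfl⟩
  let Ψe : (Fin m → Bool) → StrongDual ℝ Y := fun e =>
    Ψ.comp (ContinuousLinearMap.single ℝ (fun _ : Fin m → Bool => Y) e)
  have hΨsum : ∀ w : W, Ψ w = ∑ e, Ψe e (w e) := by
    intro w
    conv_lhs => rw [← Finset.univ_sum_single w]
    rw [map_sum]
    rfl
  have hψ : ∀ k, ψ k = ∑ e, sg (e k) • Ψe e := by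
    intro k
    ext y
    have h1 := hΨJ (Pi.single k y)
    rw [hΨsum] at h1
    have h2 : ∑ l, ψ l ((Pi.single k y : Fin m → Y) l) = ψ k y := by
      rw [Finset.sum_eq_single k]
      · simp
      · intro l _ hl
        simp [Pi.single_apply, hl]
      · simp
    rw [h2] at h1
    rw [← h1, _root_.sum_apply]
    refine Finset.sum_congr rfl fun e _ => ?_
    have h3 : J (Pi.single k y) e = sg (e k) • y := by
      change ssum e (Pi.single k y) = _
      rw [ssum, Finset.sum_eq_single k]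
      · simp
      · intro l _ hl
        simp [Pi.single_apply, hl]
      · simp
    rw [h3, map_smul]
    rfl
  have hfinal : ∑ k, S (ψ k) k ≤ a * (u / M) := by
    calc ∑ k, S (ψ k) k = ∑ k, ∑ e : Fin m → Bool, sg (e k) * S (Ψe e) k := by
          refine Finset.sum_congr rfl fun k _ => ?_
          rw [hψ k, map_sum, Finset.sum_apply]
          refine Finset.sum_congr rfl fun e _ => ?_
          rw [map_smul]; rfl
      _ = ∑ e : Fin m → Bool, ∑ k, sg (e k) * S (Ψe e) k := Finset.sum_comm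
      _ ≤ ∑ e : Fin m → Bool, a * ‖Ψe e‖ := Finset.sum_le_sum fun e _ => hS e _
      _ = a * ∑ e : Fin m → Bool, ‖Ψe e‖ := by rw [Finset.mul_sum]
      _ ≤ a * ‖Ψ‖ := by gcongr; exact dual_pi Ψ
      _ ≤ a * (u / M) := by gcongr
  have h1 : a * (u / M) < u := by
    rw [mul_div_assoc', div_lt_iff₀ hM0]
    nlinarith
  rw [hfs] at hf2
  linarith

end Pool.Agent.X304.Ec
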