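import Pool.Agent.X304.Ec.Sets

/-!
# `L_1 + L_∞` is not isomorphic to a dual space
-/

set_option autoImplicit false

open Set MeasureTheory Filter Topology Metric
open scoped ENNReal

namespace Pool.Agent.X304.Ec

namespace SumSpace

variable {Y : Type*} [NormedAddCommGroup Y] [NormedSpace ℝ Y]

lemma norm_le_of_ssum {m : ℕ} (z : Fin m → Y) (M : ℝ) (h : ∀ e, ‖ssum e z‖ ≤ M) (k : Fin m) :
    ‖z k‖ ≤ M := by
  classical
  let e : Fin m → Bool := fun _ => true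
  have h1 : ssum e z - ssum (Function.update e k false) z = (2 : ℝ) • z k := by
    rw [ssum, ssum, ← Finset.sum_sub_distrib, Finset.sum_eq_single k]
    · simp only [e, Function.update_self, sg, if_true]
      rw [← sub_smul]
      norm_num
    · intro l _ hl
      rw [Function.update_of_ne hl, sub_self]
    · simp
  have h2 : ‖(2 : ℝ) • z k‖ ≤ M + M := by
    rw [← h1]
    exact (norm_sub_le _ _).trans (add_le_add (h _) (h _))
  rw [norm_smul, Real.norm_of_nonneg (by norm_num : (0 : ℝ) ≤ 2)] at h2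
  linarith

/-- A point of a thick set where the derivative is large. -/
lemma exists_point {E A J : Set ℝ} (hEA : ∀ B, MeasurableSet B → B ⊆ A → volume (E ∩ B) = volume B)
    (hJ : MeasurableSet J) (hJA : J ⊆ A) (hJ0 : volume J ≠ 0) (hJf : volume J ≠ ∞) (φ g : ℝ → ℝ)
    (hg : Measurable g) (hgi : Integrable g volume) (hφ : ∀ᵐ t : ℝ, φ t = g t) (c : ℝ)
    (hc : c * (volume J).toReal < ∫ t in J, g t) : ∃ t ∈ E ∩ J, c ≤ φ t := by
  by_contra hcon
  push Not at hcon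
  let B : Set ℝ := J ∩ {t | c ≤ g t}
  have hB : MeasurableSet B := hJ.inter (measurableSet_le measurable_const hg)
  have h1 : volume (E ∩ B) = 0 := by
    apply measure_mono_null _ (ae_iff.1 hφ)
    rintro t ⟨htE, htJ, htg⟩
    intro h
    have := hcon t ⟨htE, htJ⟩
    rw [h] at this
    exact absurd htg (not_le.2 this)
  rw [hEA B hB (inter_subset_left.trans hJA)] at h1
  have h2 : ∀ᵐ t ∂(volume.restrict J), g t ≤ c := by
    rw [ae_restrict_iff' hJ]
    filter_upwards [compl_mem_ae_iff.2 h1] with t ht htJ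
    by_contra hlt
    push Not at hlt
    exact ht ⟨htJ, hlt.le⟩
  have h3 : ∫ t in J, g t ≤ ∫ _t in J, c :=
    integral_mono_ae hgi.integrableOn (integrableOn_const hJf) h2
  rw [setIntegral_const, smul_eq_mul, Measure.real, mul_comm] at h3
  linarith

/-- There is no isomorphism onto a dual space. -/
theorem no_iso (T : SumSpace ≃L[ℝ] StrongDual ℝ Y) : False := by
  classical
  set C : ℝ := ‖(T : SumSpace →L[ℝ] StrongDual ℝ Y)‖ with hC
  set D : ℝ := ‖(T.symm : StrongDual ℝ Y →L[ℝ] SumSpace)‖ with hD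
  have hC0 : 0 ≤ C := norm_nonneg (T : SumSpace →L[ℝ] StrongDual ℝ Y)
  have hD0 : 0 ≤ D := norm_nonneg (T.symm : StrongDual ℝ Y →L[ℝ] SumSpace)
  have hT : ∀ x, ‖T x‖ ≤ C * ‖x‖ := fun x => (T : SumSpace →L[ℝ] StrongDual ℝ Y).le_opNorm x
  have hT' : ∀ φ, ‖T.symm φ‖ ≤ D * ‖φ‖ := fun x =>
    (T.symm : StrongDual ℝ Y →L[ℝ] SumSpace).le_opNorm x
  obtain ⟨Φ, hΦ1, hΦ2⟩ := exists_phi (T : SumSpace →L[ℝ] StrongDual ℝ Y)
  set K : ℝ := D * C + 1 with hK
  have hK0 : 0 < K := by positivity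
  have hx : ∀ t, ‖T.symm (Φ t)‖ < K := by
    intro t
    calc ‖T.symm (Φ t)‖ ≤ D * ‖Φ t‖ := hT' _
      _ ≤ D * C := by gcongr; exact hΦ1 t
      _ < K := by rw [hK]; linarith
  choose u V hxd hu hV using fun t => exists_dec_fun (T.symm (Φ t)) (hx t)
  set M : ℝ := D + 1 with hM
  have hM0 : 0 < M := by positivity
  set ε : ℝ := 1 / (8 * (C * M + 1)) with hε
  have hε0 : 0 < ε := by positivity
  have hεM : C * ε * M ≤ 1 / 8 := by
    rw [hε, mul_one_div, div_mul_eq_mul_div, div_le_div_iff₀ (by positivity) (by norm_num)]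
    nlinarith
  -- a ball which contains many of the `u t`
  obtain ⟨q, hq⟩ : ∃ q : Lp ℝ 1 mu, volume {t | t ∈ Ioo (0 : ℝ) 1 ∧ ‖u t - q‖ < ε} ≠ 0 := by
    by_contra hcon
    push Not at hcon
    have : Fact ((1 : ℝ≥0∞) ≠ ∞) := ⟨ENNReal.one_ne_top⟩
    have : SecondCountableTopology (Lp ℝ 1 mu) := Lp.SecondCountableTopology
    obtain ⟨s, hs1, hs2⟩ := TopologicalSpace.exists_countable_dense (Lp ℝ 1 mu)
    have h1 : volume (⋃ q ∈ s, {t | t ∈ Ioo (0 : ℝ) 1 ∧ ‖u t - q‖ < ε}) = 0 :=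
      (measure_biUnion_null_iff hs1).2 fun q _ => hcon q
    have h2 : Ioo (0 : ℝ) 1 ⊆ ⋃ q ∈ s, {t | t ∈ Ioo (0 : ℝ) 1 ∧ ‖u t - q‖ < ε} := by
      intro t ht
      obtain ⟨q, hq1, hq2⟩ := hs2.exists_dist_lt (u t) hε0
      simp only [mem_iUnion, exists_prop]
      exact ⟨q, hq1, ht, by rwa [← dist_eq_norm]⟩
    have h3 := measure_mono_null h2 h1
    simp at h3
  set E : Set ℝ := {t | t ∈ Ioo (0 : ℝ) 1 ∧ ‖u t - q‖ < ε} with hE
  have hEf : volume E ≠ ∞ := by
    have h1 : volume E ≤ volume (Ioo (0 : ℝ) 1) := measure_mono fun t ht => ht.1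
    exact (h1.trans_lt (by simp)).ne
  let A : Set ℝ := toMeasurable volume E ∩ Ioo 0 1
  have hA : MeasurableSet A := (measurableSet_toMeasurable _ _).inter measurableSet_Ioo
  have hA0 : volume A ≠ 0 := by
    intro h
    have h1 : E ⊆ A := fun t ht => ⟨subset_toMeasurable _ _ ht, ht.1⟩
    exact hq (measure_mono_null h1 h)
  have hEA : ∀ B, MeasurableSet B → B ⊆ A → volume (E ∩ B) = volume B := by
    intro B hB hBA
    rw [← Measure.measure_toMeasurable_inter hB hEf]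
    congr 1
    exact inter_eq_right.2 fun t ht => (hBA ht).1
  -- absolute continuity of the integral of `q`
  obtain ⟨δ, hδ0, hδ⟩ : ∃ δ : ℝ, 0 < δ ∧ ∀ J : Set ℝ, mu J ≤ ENNReal.ofReal δ →
      |∫ t in J, (q : ℝ → ℝ) t ∂mu| ≤ 1 / 8 := by
    have h1 : ∫⁻ t, ‖(q : ℝ → ℝ) t‖ₑ ∂mu ≠ ∞ := (L1.integrable_coeFn q).2.ne
    obtain ⟨δ', hδ'0, hδ'⟩ := exists_pos_setLIntegral_lt_of_measure_lt h1
      (ε := ENNReal.ofReal (1 / 8)) (by simp)
    obtain ⟨r, hr0, hr1, hr2⟩ := ENNReal.lt_iff_exists_real_btwn.1 hδ'0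
    refine ⟨r, by simpa using hr1, fun J hJ => ?_⟩
    have h2 := hδ' J (hJ.trans_lt hr2)
    rw [← Real.norm_eq_abs]
    have h3 := enorm_integral_le_lintegral_enorm (μ := mu.restrict J) (q : ℝ → ℝ)
    have h4 := h3.trans h2.le
    rw [← ofReal_norm] at h4
    exact (ENNReal.ofReal_le_ofReal_iff (by norm_num)).1 h4
  -- the number of parts
  set b : ℝ := 1 / (2 * K) with hb
  have hb0 : 0 < b := by positivity
  obtain ⟨m, hm⟩ : ∃ m : ℕ, (2 * (C * M) / b) ^ 2 < m := exists_nat_gt _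
  have hm0 : 0 < m := by
    have : (0 : ℝ) < m := lt_of_le_of_lt (sq_nonneg _) hm
    exact_mod_cast this
  obtain ⟨J, hJm, hJA, hJd, hJ0, hJδ⟩ := exists_parts A hA inter_subset_right hA0 m δ hδ0
  have hJs : ∀ k, J k ⊆ Ioo 0 1 := fun k => (hJA k).trans inter_subset_right
  have hJf : ∀ k, mu (J k) ≠ ∞ := fun k => mu_ne_top (hJs k)
  have hJv : ∀ k, mu (J k) = volume (J k) := fun k => mu_eq (hJm k) (hJs k)
  have hJfv : ∀ k, volume (J k) ≠ ∞ := fun k => hJv k ▸ hJf k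
  have hJp : ∀ k, 0 < (volume (J k)).toReal := fun k => ENNReal.toReal_pos (hJ0 k) (hJfv k)
  have hJU : mu (⋃ k, J k) ≤ 1 := mu_sub (iUnion_subset hJs)
  -- the functionals on the dual space
  let S : StrongDual ℝ Y →ₗ[ℝ] (Fin m → ℝ) :=
    LinearMap.pi fun k => intOn (J k) (hJf k) ∘ₗ T.symm.toLinearEquiv.toLinearMap
  have hS : ∀ φ k, S φ k = intOn (J k) (hJf k) (T.symm φ) := fun _ _ => rfl
  have hSb : ∀ (e : Fin m → Bool) (φ : StrongDual ℝ Y), ∑ k, sg (e k) * S φ k ≤ D * ‖φ‖ := by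
    intro e φ
    exact (intOn_signs J hJm hJd hJU hJf e (T.symm φ)).trans (hT' φ)
  let φ : Fin (m + 1) → StrongDual ℝ Y := Fin.cons (T (ofL1 q))
    fun k => T (((volume (J k)).toReal)⁻¹ • ofBM (ind (J k) (hJm k)))
  obtain ⟨y, hy1, hy2⟩ := helly S D hD0 hSb φ M (by rw [hM]; linarith) (1 / 8) (by norm_num)
  have hy3 : ∀ k, ‖y k‖ ≤ M := fun k => norm_le_of_ssum y M hy1 k
  have hyq : ∀ k, |T (ofL1 q) (y k)| ≤ 1 / 4 := by
    intro k
    have h1 := hy2 0 k
    have h2 : φ 0 = T (ofL1 q) := rfl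
    rw [h2, hS, T.symm_apply_apply, intOn_ofL1] at h1
    have h3 := hδ (J k) ((hJv k).le.trans (hJδ k))
    have h4 := abs_sub_abs_le_abs_sub (T (ofL1 q) (y k)) (∫ t in J k, (q : ℝ → ℝ) t ∂mu)
    linarith
  have hyJ : ∀ k, 7 / 8 * (volume (J k)).toReal < T (ofBM (ind (J k) (hJm k))) (y k) := by
    intro k
    have h1 := hy2 k.succ k
    have h2 : φ k.succ = T (((volume (J k)).toReal)⁻¹ • ofBM (ind (J k) (hJm k))) := rfl
    rw [h2, hS, T.symm_apply_apply, map_smul, map_smul, intOn_ind, inter_self, hJv,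
      smul_eq_mul, inv_mul_cancel₀ (hJp k).ne', smul_apply, smul_eq_mul,
      abs_sub_lt_iff] at h1
    have h3 := h1.2
    have h4 : 7 / 8 < ((volume (J k)).toReal)⁻¹ * T (ofBM (ind (J k) (hJm k))) (y k) := by linarith
    rw [inv_mul_eq_div, lt_div_iff₀ (hJp k)] at h4
    exact h4
  -- the points
  have hpt : ∀ k, ∃ t ∈ E ∩ J k, 7 / 8 ≤ Φ t (y k) := by
    intro k
    obtain ⟨g, hg1, hg2, hg3, hg4⟩ := hΦ2 (y k)
    apply exists_point hEA (hJm k) (hJA k) (hJ0 k) (hJfv k) (fun t => Φ t (y k)) g hg1 hg2 hg4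
    rw [← hg3 (J k) (hJm k) (hJs k)]
    exact hyJ k
  choose t ht1 ht2 using hpt
  -- the functionals on bounded functions
  let θ : Fin m → (BM ℝ →ₗ[ℝ] ℝ) := fun k =>
    (ContinuousLinearMap.apply ℝ ℝ (y k)).toLinearMap ∘ₗ T.toLinearEquiv.toLinearMap ∘ₗ ofBM
  have hθ : ∀ k z, θ k z = T (ofBM z) (y k) := fun _ _ => rfl
  have hθb : ∀ (e : Fin m → Bool) (z : BM ℝ), (∀ x, |z.1 x| ≤ 1) →
      ∑ k, sg (e k) * θ k z ≤ C * M := by
    intro e z hz
    have h1 : ∑ k, sg (e k) * θ k z = T (ofBM z) (ssum e y) := by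
      rw [ssum, map_sum]
      refine Finset.sum_congr rfl fun k _ => ?_
      rw [map_smul, smul_eq_mul, hθ]
    rw [h1]
    calc T (ofBM z) (ssum e y) ≤ ‖T (ofBM z) (ssum e y)‖ := le_abs_self _
      _ ≤ ‖T (ofBM z)‖ * ‖ssum e y‖ := ContinuousLinearMap.le_opNorm _ _
      _ ≤ (C * 1) * M := by
          gcongr
          · refine (hT _).trans ?_
            gcongr
            exact norm_ofBM_le z 1 zero_le_one hz
          · exact hy1 e
      _ = C * M := by rw [mul_one]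
  have hθV : ∀ k, 1 / 2 ≤ θ k (V (t k)) := by
    intro k
    have h1 : T (ofL1 (u (t k))) (y k) + θ k (V (t k)) = Φ (t k) (y k) := by
      rw [hθ, ← add_apply, ← map_add, ← hxd, T.apply_symm_apply]
    have h2 : T (ofL1 (u (t k))) (y k) = T (ofL1 (u (t k) - q)) (y k) + T (ofL1 q) (y k) := by
      rw [← add_apply, ← map_add, ← map_add, sub_add_cancel]
    have h3 : T (ofL1 (u (t k) - q)) (y k) ≤ 1 / 8 := by
      calc T (ofL1 (u (t k) - q)) (y k) ≤ ‖T (ofL1 (u (t k) - q)) (y k)‖ := le_abs_self _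
        _ ≤ ‖T (ofL1 (u (t k) - q))‖ * ‖y k‖ := ContinuousLinearMap.le_opNorm _ _
        _ ≤ (C * ε) * M := by
            gcongr
            · refine (hT _).trans ?_
              gcongr
              exact (norm_ofL1_le _).trans (ht1 k).1.2.le
            · exact hy3 k
        _ ≤ 1 / 8 := hεM
    have h4 := (abs_le.1 (hyq k)).2
    have h5 := ht2 k
    linarith
  -- normalisation
  let V' : Fin m → BM ℝ := fun k => K⁻¹ • V (t k)
  have hV'1 : ∀ k x, |(V' k).1 x| ≤ 1 := by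
    intro k x
    change |K⁻¹ * (V (t k)).1 x| ≤ 1
    rw [abs_mul, abs_of_pos (by positivity), inv_mul_le_iff₀ hK0, mul_one]
    exact hV (t k) x
  have hV'2 : ∀ k, b ≤ θ k (V' k) := by
    intro k
    rw [map_smul, smul_eq_mul, hb]
    calc 1 / (2 * K) = K⁻¹ * (1 / 2) := by field_simp
      _ ≤ K⁻¹ * θ k (V (t k)) := by gcongr; exact hθV k
  have hfin := cotype hm0 θ (C * M) hθb V' hV'1 b hV'2
  have h1 : 2 * (C * M) / b < Real.sqrt m := by
    apply Real.lt_sqrt_of_sq_lt hm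
  rw [div_lt_iff₀ hb0] at h1
  linarith

end SumSpace

end Pool.Agent.X304.Ec
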