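import Pool.Agent.X304.Ec.Space

/-!
# Maps to `L_1 + L_∞` and functionals
-/

set_option autoImplicit false

open Set MeasureTheory Filter Topology
open scoped ENNReal

namespace Pool.Agent.X304.Ec

namespace SumSpace

lemma memLp_top (z : BM ℝ) : MemLp z.1 ⊤ mu := by
  obtain ⟨hz, C, hC⟩ := z.2
  exact memLp_top_of_bound hz.aestronglyMeasurable C (ae_of_all _ fun x => by
    rw [Real.norm_eq_abs]; exact hC x)

/-- The class of a bounded measurable function. -/
noncomputable def ofBM : BM ℝ →ₗ[ℝ] SumSpace where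
  toFun z := ⟨AEEqFun.mk z.1 z.2.1.aestronglyMeasurable,
    Submodule.mem_sup_right ((memLp_top z).toLp z.1).2⟩
  map_add' z w := rfl
  map_smul' c z := rfl

lemma fn_ofBM (z : BM ℝ) : ((ofBM z).fn : ℝ → ℝ) =ᵐ[mu] z.1 := AEEqFun.coeFn_mk _ _

/-- An integrable function. -/
noncomputable def ofL1 : Lp ℝ 1 mu →ₗ[ℝ] SumSpace where
  toFun u := ⟨u, Submodule.mem_sup_left u.2⟩
  map_add' z w := rfl
  map_smul' c z := rfl

lemma fn_ofL1 (u : Lp ℝ 1 mu) : (ofL1 u).fn = (u : ℝ →ₘ[mu] ℝ) := rfl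

lemma norm_ofL1_le (u : Lp ℝ 1 mu) : ‖ofL1 u‖ ≤ ‖u‖ := by
  have := norm_le_dec (ofL1 u) u 0 (by rw [fn_ofL1]; simp)
  simpa using this

lemma norm_ofBM_le (z : BM ℝ) (C : ℝ) (hC : 0 ≤ C) (h : ∀ x, |z.1 x| ≤ C) : ‖ofBM z‖ ≤ C := by
  have h1 := norm_le_dec (ofBM z) 0 ((memLp_top z).toLp z.1) (by
    rw [AddSubgroup.coe_zero, zero_add]; rfl)
  refine h1.trans ?_
  rw [norm_zero, zero_add, Lp.norm_toLp, eLpNorm_exponent_top]
  apply ENNReal.toReal_le_of_le_ofReal hC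
  exact eLpNormEssSup_le_of_ae_bound (ae_of_all _ fun x => by rw [Real.norm_eq_abs]; exact h x)

/-- The indicator function. -/
noncomputable def ind (J : Set ℝ) (hJ : MeasurableSet J) : BM ℝ :=
  ⟨J.indicator fun _ => 1, measurable_const.indicator hJ, 1, fun x => by
    by_cases hx : x ∈ J <;> simp [hx]⟩

lemma norm_ofBM_ind_le (J : Set ℝ) (hJ : MeasurableSet J) (hJf : mu J ≠ ∞) :
    ‖ofBM (ind J hJ)‖ ≤ (mu J).toReal := by
  have h1 := norm_le_dec (ofBM (ind J hJ)) (indicatorConstLp 1 hJ hJf (1 : ℝ)) 0 (by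
    rw [AddSubgroup.coe_zero, add_zero]
    rfl)
  refine h1.trans ?_
  rw [norm_zero, add_zero, norm_indicatorConstLp one_ne_zero ENNReal.one_ne_top]
  simp [Measure.real]

/-- A decomposition with a bounded function. -/
lemma exists_dec_fun (x : SumSpace) {r : ℝ} (hr : ‖x‖ < r) : ∃ (u : Lp ℝ 1 mu) (V : BM ℝ),
    x = ofL1 u + ofBM V ∧ ‖u‖ ≤ r ∧ ∀ t, |V.1 t| ≤ r := by
  obtain ⟨u, v, h, hlt⟩ := exists_dec_lt x hr
  have hu := norm_nonneg u
  have hv := norm_nonneg v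
  obtain ⟨w, hw1, hw2⟩ : ∃ w : ℝ → ℝ, Measurable w ∧ (v : ℝ → ℝ) =ᵐ[mu] w :=
    ⟨_, (Lp.aestronglyMeasurable v).stronglyMeasurable_mk.measurable,
      (Lp.aestronglyMeasurable v).ae_eq_mk⟩
  let V : ℝ → ℝ := fun t => max (-‖v‖) (min ‖v‖ (w t))
  have hV1 : Measurable V := measurable_const.max (measurable_const.min hw1)
  have hV2 : ∀ t, |V t| ≤ ‖v‖ := by
    intro t
    rw [abs_le]
    exact ⟨le_max_left _ _, max_le (by linarith) (min_le_left _ _)⟩
  have hV3 : V =ᵐ[mu] (v : ℝ → ℝ) := by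
    filter_upwards [hw2, norm_le_top v] with t h1 h2
    rw [Real.norm_eq_abs, abs_le] at h2
    simp only [V]
    rw [← h1, min_eq_right h2.2, max_eq_right h2.1]
  refine ⟨u, ⟨V, hV1, ‖v‖, hV2⟩, ?_, by linarith, fun t => (hV2 t).trans (by linarith)⟩
  apply fn_injective
  rw [fn_add, fn_ofL1, h]
  congr 1
  apply AEEqFun.ext
  have h9 := fn_ofBM (⟨V, hV1, ‖v‖, hV2⟩ : BM ℝ)
  exact hV3.symm.trans h9.symm

/-- The integral over a set. -/
noncomputable def intOn (J : Set ℝ) (hJ : mu J ≠ ∞) : SumSpace →ₗ[ℝ] ℝ where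
  toFun x := ∫ t in J, (x.fn : ℝ → ℝ) t ∂mu
  map_add' x y := by
    rw [← integral_add (integrableOn_fn x hJ) (integrableOn_fn y hJ)]
    apply integral_congr_ae
    apply ae_restrict_of_ae
    exact AEEqFun.coeFn_add _ _
  map_smul' c x := by
    rw [RingHom.id_apply, smul_eq_mul, ← integral_const_mul]
    apply integral_congr_ae
    apply ae_restrict_of_ae
    exact AEEqFun.coeFn_smul _ _

lemma intOn_apply (J : Set ℝ) (hJ : mu J ≠ ∞) (x : SumSpace) :
    intOn J hJ x = ∫ t in J, (x.fn : ℝ → ℝ) t ∂mu := rfl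

lemma intOn_ind (J : Set ℝ) (hJ : mu J ≠ ∞) (I : Set ℝ) (hI : MeasurableSet I) :
    intOn J hJ (ofBM (ind I hI)) = (mu (I ∩ J)).toReal := by
  rw [intOn_apply]
  have h1 : ∫ t in J, ((ofBM (ind I hI)).fn : ℝ → ℝ) t ∂mu = ∫ t in J, I.indicator (fun _ => (1 : ℝ)) t ∂mu :=
    integral_congr_ae (ae_restrict_of_ae (fn_ofBM _))
  rw [h1, integral_indicator hI, setIntegral_const, smul_eq_mul, mul_one, Measure.real,
    Measure.restrict_apply hI]

lemma intOn_ofL1 (J : Set ℝ) (hJ : mu J ≠ ∞) (u : Lp ℝ 1 mu) :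
    intOn J hJ (ofL1 u) = ∫ t in J, (u : ℝ → ℝ) t ∂mu := rfl

/-- The sums with signs of the integrals over disjoint subsets of the unit interval. -/
lemma intOn_signs {m : ℕ} (J : Fin m → Set ℝ) (hJm : ∀ k, MeasurableSet (J k))
    (hJd : Pairwise (Function.onFun Disjoint J)) (hJ1 : mu (⋃ k, J k) ≤ 1)
    (hJf : ∀ k, mu (J k) ≠ ∞) (e : Fin m → Bool) (x : SumSpace) :
    ∑ k, sg (e k) * intOn (J k) (hJf k) x ≤ ‖x‖ := by
  have hU : mu (⋃ k, J k) ≠ ∞ := (hJ1.trans_lt ENNReal.one_lt_top).ne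
  apply le_norm_of
  intro u v h
  calc ∑ k, sg (e k) * intOn (J k) (hJf k) x
      ≤ ∑ k, ∫ t in J k, ‖(x.fn : ℝ → ℝ) t‖ ∂mu := by
        refine Finset.sum_le_sum fun k _ => ?_
        calc sg (e k) * intOn (J k) (hJf k) x ≤ |sg (e k) * intOn (J k) (hJf k) x| := le_abs_self _
          _ = |intOn (J k) (hJf k) x| := by rw [abs_mul, abs_sg, one_mul]
          _ ≤ _ := by
            rw [intOn_apply, ← Real.norm_eq_abs]
            exact norm_integral_le_integral_norm _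
    _ = ∫ t in ⋃ k, J k, ‖(x.fn : ℝ → ℝ) t‖ ∂mu := by
        rw [integral_iUnion_fintype hJm hJd fun k => (integrableOn_fn x (hJf k)).norm]
    _ ≤ (∫ t in ⋃ k, J k, ‖(u : ℝ → ℝ) t‖ ∂mu) + (mu (⋃ k, J k)).toReal * ‖v‖ :=
        setIntegral_norm_le x hU u v h
    _ ≤ ‖u‖ + 1 * ‖v‖ := by
        gcongr
        · rw [norm_one_eq]
          exact setIntegral_le_integral (L1.integrable_coeFn u).norm
            (ae_of_all _ fun _ => norm_nonneg _)
        · exact ENNReal.toReal_le_of_le_ofReal zero_le_one (by simpa using hJ1)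
    _ = ‖u‖ + ‖v‖ := by rw [one_mul]

/-! ### densities of functionals -/

lemma mu_unit : mu (Ioo 0 1) = 1 := by
  rw [Measure.restrict_apply measurableSet_Ioo, inter_eq_left.2 fun x hx => hx.1]
  simp

lemma inter_Ioi {J : Set ℝ} (h : J ⊆ Ioo 0 1) : J ∩ Ioi 0 = J :=
  inter_eq_left.2 fun _ hx => (h hx).1

lemma mu_eq {J : Set ℝ} (hJ : MeasurableSet J) (h : J ⊆ Ioo 0 1) : mu J = volume J := by
  rw [Measure.restrict_apply hJ, inter_Ioi h]

lemma mu_sub {J : Set ℝ} (h : J ⊆ Ioo 0 1) : mu J ≤ 1 := mu_unit ▸ measure_mono h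

lemma mu_ne_top {J : Set ℝ} (h : J ⊆ Ioo 0 1) : mu J ≠ ∞ := ((mu_sub h).trans_lt ENNReal.one_lt_top).ne

lemma memLp_cut (f : Lp ℝ 2 mu) : MemLp ((Ioo (0 : ℝ) 1).indicator (f : ℝ → ℝ)) 1 mu := by
  rw [memLp_indicator_iff_restrict measurableSet_Ioo]
  have : IsFiniteMeasure (mu.restrict (Ioo 0 1)) := ⟨by
    rw [Measure.restrict_apply_univ, mu_unit]; exact ENNReal.one_lt_top⟩
  exact ((Lp.memLp f).restrict _).mono_exponent one_le_two

/-- The restriction of a square integrable function to the unit interval. -/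
noncomputable def cut (f : Lp ℝ 2 mu) : Lp ℝ 1 mu := (memLp_cut f).toLp _

lemma cut_add (f g : Lp ℝ 2 mu) : cut (f + g) = cut f + cut g := by
  rw [cut, cut, cut, ← MemLp.toLp_add]
  apply MemLp.toLp_congr
  filter_upwards [Lp.coeFn_add f g] with t ht
  by_cases h : t ∈ Ioo (0 : ℝ) 1
  · simp only [indicator_of_mem h, Pi.add_apply, ht]
  · simp only [indicator_of_notMem h, Pi.add_apply, add_zero]

lemma cut_smul (c : ℝ) (f : Lp ℝ 2 mu) : cut (c • f) = c • cut f := by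
  rw [cut, cut, ← MemLp.toLp_const_smul]
  apply MemLp.toLp_congr
  filter_upwards [Lp.coeFn_smul c f] with t ht
  by_cases h : t ∈ Ioo (0 : ℝ) 1
  · simp only [indicator_of_mem h, Pi.smul_apply, ht]
  · simp only [indicator_of_notMem h, Pi.smul_apply, smul_zero]

lemma norm_cut_le (f : Lp ℝ 2 mu) : ‖cut f‖ ≤ ‖f‖ := by
  rw [cut, Lp.norm_toLp, Lp.norm_def]
  apply ENNReal.toReal_mono (Lp.eLpNorm_ne_top f)
  rw [eLpNorm_indicator_eq_eLpNorm_restrict measurableSet_Ioo]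
  have : IsProbabilityMeasure (mu.restrict (Ioo 0 1)) := ⟨by
    rw [Measure.restrict_apply_univ, mu_unit]⟩
  exact (eLpNorm_le_eLpNorm_of_exponent_le one_le_two
    (Lp.aestronglyMeasurable f).restrict).trans (eLpNorm_mono_measure _ Measure.restrict_le_self)

/-- The functional on the square integrable functions. -/
noncomputable def ell2 (L : SumSpace →L[ℝ] ℝ) : StrongDual ℝ (Lp ℝ 2 mu) :=
  LinearMap.mkContinuous
    { toFun := fun f => L (ofL1 (cut f))
      map_add' := fun f g => by rw [cut_add, map_add, map_add]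
      map_smul' := fun c f => by rw [cut_smul, map_smul, map_smul, RingHom.id_apply] } ‖L‖ (by
    intro f
    calc ‖L (ofL1 (cut f))‖ ≤ ‖L‖ * ‖ofL1 (cut f)‖ := L.le_opNorm _
      _ ≤ ‖L‖ * ‖f‖ := by
        gcongr
        exact (norm_ofL1_le _).trans (norm_cut_le f))

/-- A functional has a density on the unit interval. -/
lemma exists_density (L : SumSpace →L[ℝ] ℝ) : ∃ g : ℝ → ℝ, Measurable g ∧ Integrable g volume ∧
    (∀ t, t ∉ Ioo (0 : ℝ) 1 → g t = 0) ∧
    ∀ (J : Set ℝ) (hJ : MeasurableSet J), J ⊆ Ioo 0 1 →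
      L (ofBM (ind J hJ)) = ∫ t in J, g t := by
  let G : Lp ℝ 2 mu := (InnerProductSpace.toDual ℝ (Lp ℝ 2 mu)).symm (ell2 L)
  have hG : ∀ f : Lp ℝ 2 mu, inner ℝ G f = L (ofL1 (cut f)) := by
    intro f
    exact InnerProductSpace.toDual_symm_apply
  let g0 : ℝ → ℝ := (Lp.aestronglyMeasurable G).mk _
  have hg0m : Measurable g0 := (Lp.aestronglyMeasurable G).stronglyMeasurable_mk.measurable
  have hg0 : (G : ℝ → ℝ) =ᵐ[mu] g0 := (Lp.aestronglyMeasurable G).ae_eq_mk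
  have hres : mu.restrict (Ioo 0 1) = volume.restrict (Ioo 0 1) := by
    rw [Measure.restrict_restrict measurableSet_Ioo, inter_eq_left.2 fun x hx => hx.1]
  have hint : IntegrableOn g0 (Ioo 0 1) volume := by
    have h1 := memLp_cut G
    rw [memLp_indicator_iff_restrict measurableSet_Ioo, memLp_one_iff_integrable] at h1
    rw [IntegrableOn, ← hres]
    exact h1.congr (ae_restrict_of_ae hg0)
  refine ⟨(Ioo (0 : ℝ) 1).indicator g0, hg0m.indicator measurableSet_Ioo,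
    hint.integrable_indicator measurableSet_Ioo, fun t ht => indicator_of_notMem ht _, ?_⟩
  intro J hJ hJs
  have h1 : ∫ t in J, (Ioo (0 : ℝ) 1).indicator g0 t = ∫ t in J, g0 t := by
    apply setIntegral_congr_fun hJ
    intro t ht
    exact indicator_of_mem (hJs ht) _
  have hJf := mu_ne_top hJs
  have h2 := hG (indicatorConstLp 2 hJ hJf 1)
  rw [real_inner_comm, L2.inner_indicatorConstLp_one] at h2
  have h3 : ∫ t in J, (G : ℝ → ℝ) t ∂mu = ∫ t in J, g0 t := by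
    have h4 : mu.restrict J = volume.restrict J := by
      rw [Measure.restrict_restrict hJ, inter_Ioi hJs]
    rw [← h4]
    exact integral_congr_ae (ae_restrict_of_ae hg0)
  rw [h1, ← h3, h2]
  congr 1
  apply fn_injective
  rw [fn_ofL1]
  apply AEEqFun.ext
  refine (fn_ofBM _).trans (EventuallyEq.symm ?_)
  refine (MemLp.coeFn_toLp (memLp_cut _)).trans ?_
  filter_upwards [indicatorConstLp_coeFn (p := 2) (hs := hJ) (hμs := hJf) (c := (1 : ℝ))] with t ht
  change (Ioo (0 : ℝ) 1).indicator (indicatorConstLp 2 hJ hJf (1 : ℝ) : ℝ → ℝ) t =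
    J.indicator (fun _ => (1 : ℝ)) t
  by_cases h : t ∈ Ioo (0 : ℝ) 1
  · rw [indicator_of_mem h, ht]
  · rw [indicator_of_notMem h, indicator_of_notMem fun h' => h (hJs h')]

end SumSpace

end Pool.Agent.X304.Ec
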