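import Pool.Agent.X304.Ec.Maps

/-!
# The weak-star derivative
-/

set_option autoImplicit false

open Set MeasureTheory Filter Topology Metric
open scoped ENNReal

namespace Pool.Agent.X304.Ec

namespace SumSpace

/-- the small interval around `t` -/
def iv (t : ℝ) (n : ℕ) : Set ℝ := closedBall t (1 / ((n : ℝ) + 1)) ∩ Ioo 0 1

lemma iv_meas (t : ℝ) (n : ℕ) : MeasurableSet (iv t n) :=
  measurableSet_closedBall.inter measurableSet_Ioo

lemma iv_sub (t : ℝ) (n : ℕ) : iv t n ⊆ Ioo 0 1 := inter_subset_right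

/-- the normalised indicator of the small interval -/
noncomputable def av (t : ℝ) (n : ℕ) : SumSpace :=
  (((n : ℝ) + 1) / 2) • ofBM (ind (iv t n) (iv_meas t n))

lemma vol_ball (t : ℝ) (n : ℕ) :
    volume (closedBall t (1 / ((n : ℝ) + 1))) = ENNReal.ofReal (2 / ((n : ℝ) + 1)) := by
  rw [Real.volume_closedBall]
  congr 1
  ring

lemma norm_av_le (t : ℝ) (n : ℕ) : ‖av t n‖ ≤ 1 := by
  have h0 : (0 : ℝ) < (n : ℝ) + 1 := by positivity
  rw [av, norm_smul, Real.norm_of_nonneg (by positivity)]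
  have h1 : ‖ofBM (ind (iv t n) (iv_meas t n))‖ ≤ 2 / ((n : ℝ) + 1) := by
    refine (norm_ofBM_ind_le _ _ (mu_ne_top (iv_sub t n))).trans ?_
    rw [mu_eq (iv_meas t n) (iv_sub t n)]
    apply ENNReal.toReal_le_of_le_ofReal (by positivity)
    rw [← vol_ball t n]
    exact measure_mono inter_subset_left
  calc ((n : ℝ) + 1) / 2 * ‖ofBM (ind (iv t n) (iv_meas t n))‖
      ≤ ((n : ℝ) + 1) / 2 * (2 / ((n : ℝ) + 1)) := by gcongr
    _ = 1 := by field_simp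

/-- The averages converge almost everywhere to the density. -/
lemma tendsto_av (L : SumSpace →L[ℝ] ℝ) (g : ℝ → ℝ) (hg : Integrable g volume)
    (hg0 : ∀ t, t ∉ Ioo (0 : ℝ) 1 → g t = 0)
    (hL : ∀ (J : Set ℝ) (hJ : MeasurableSet J), J ⊆ Ioo 0 1 → L (ofBM (ind J hJ)) = ∫ t in J, g t) :
    ∀ᵐ t : ℝ, Tendsto (fun n : ℕ => L (av t n)) atTop (𝓝 (g t)) := by
  have h1 := IsUnifLocDoublingMeasure.ae_tendsto_average (μ := (volume : Measure ℝ))
    hg.locallyIntegrable 1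
  filter_upwards [h1] with t ht
  have h2 : Tendsto (fun n : ℕ => 1 / ((n : ℝ) + 1)) atTop (𝓝[>] 0) := by
    rw [tendsto_nhdsWithin_iff]
    exact ⟨tendsto_one_div_add_atTop_nhds_zero_nat, Eventually.of_forall fun n => by
      simp only [mem_Ioi]; positivity⟩
  have h3 := ht (fun _ => t) (fun n : ℕ => 1 / ((n : ℝ) + 1)) h2
    (Eventually.of_forall fun n => mem_closedBall_self (by positivity))
  refine h3.congr fun n => ?_
  have h4 : (0 : ℝ) < (n : ℝ) + 1 := by positivity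
  have h5 : ∫ s in closedBall t (1 / ((n : ℝ) + 1)), g s = ∫ s in iv t n, g s := by
    apply setIntegral_eq_of_subset_of_forall_sdiff_eq_zero measurableSet_closedBall inter_subset_left
    intro s hs
    exact hg0 s fun h => hs.2 ⟨hs.1, h⟩
  rw [setAverage_eq, h5, av, map_smul, hL _ _ (iv_sub t n), Measure.real, vol_ball,
    ENNReal.toReal_ofReal (by positivity), inv_div]

variable {Y : Type*} [NormedAddCommGroup Y] [NormedSpace ℝ Y]

lemma exists_limit (T : SumSpace →L[ℝ] StrongDual ℝ Y) (t : ℝ) :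
    ∃ Φ : StrongDual ℝ Y, ‖Φ‖ ≤ ‖T‖ ∧
      ∀ y, Tendsto (fun n : ℕ => T (av t n) y) (hyperfilter ℕ : Filter ℕ) (𝓝 (Φ y)) := by
  have hc := WeakDual.isCompact_closedBall (𝕜 := ℝ) (E := Y) 0 ‖T‖
  let F : ℕ → WeakDual ℝ Y := fun n => StrongDual.toWeakDual (T (av t n))
  have hF : ∀ n, F n ∈ WeakDual.toStrongDual ⁻¹' closedBall (0 : StrongDual ℝ Y) ‖T‖ := by
    intro n
    rw [mem_preimage, mem_closedBall_zero_iff]
    change ‖T (av t n)‖ ≤ ‖T‖
    calc ‖T (av t n)‖ ≤ ‖T‖ * ‖av t n‖ := T.le_opNorm _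
      _ ≤ ‖T‖ * 1 := by gcongr; exact norm_av_le t n
      _ = ‖T‖ := mul_one _
  obtain ⟨Φ, hΦ1, hΦ2⟩ := hc.ultrafilter_le_nhds ((hyperfilter ℕ).map F) (by
    rw [le_principal_iff]
    exact Filter.Eventually.of_forall (f := (hyperfilter ℕ : Filter ℕ)) hF)
  refine ⟨WeakDual.toStrongDual Φ, by simpa using hΦ1, fun y => ?_⟩
  have h1 : Tendsto F (hyperfilter ℕ : Filter ℕ) (𝓝 Φ) := hΦ2
  have h2 := ((WeakDual.eval_continuous (𝕜 := ℝ) y).tendsto Φ).comp h1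
  exact h2

/-- The weak-star derivative of `T` on the unit interval. -/
theorem exists_phi (T : SumSpace →L[ℝ] StrongDual ℝ Y) : ∃ Φ : ℝ → StrongDual ℝ Y,
    (∀ t, ‖Φ t‖ ≤ ‖T‖) ∧ ∀ y : Y, ∃ g : ℝ → ℝ, Measurable g ∧ Integrable g volume ∧
      (∀ (J : Set ℝ) (hJ : MeasurableSet J), J ⊆ Ioo 0 1 →
        T (ofBM (ind J hJ)) y = ∫ t in J, g t) ∧ ∀ᵐ t : ℝ, Φ t y = g t := by
  choose Φ hΦ1 hΦ2 using exists_limit T
  refine ⟨Φ, hΦ1, fun y => ?_⟩
  let L : SumSpace →L[ℝ] ℝ := (ContinuousLinearMap.apply ℝ ℝ y).comp T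
  obtain ⟨g, hg1, hg2, hg3, hg4⟩ := exists_density L
  refine ⟨g, hg1, hg2, hg4, ?_⟩
  filter_upwards [tendsto_av L g hg2 hg3 hg4] with t ht
  exact tendsto_nhds_unique (hΦ2 t y) (ht.mono_left Nat.hyperfilter_le_atTop)

end SumSpace

end Pool.Agent.X304.Ec
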