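import Pool.Agent.X304.Ec.Helly

/-!
# Functionals on bounded functions: a Riesz product argument

Functionals on the space of bounded measurable functions with bounded sums with signs have small
norms (this expresses that the dual of `L_∞` has cotype two).
-/

set_option autoImplicit false

open Set Finset

namespace Pool.Agent.X304.Ec

/-- the bounded measurable functions -/
def BM (α : Type*) [MeasurableSpace α] : Submodule ℝ (α → ℝ) where
  carrier := {z | Measurable z ∧ ∃ C : ℝ, ∀ x, |z x| ≤ C}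
  add_mem' := by
    rintro f g ⟨hf, C, hC⟩ ⟨hg, D, hD⟩
    exact ⟨hf.add hg, C + D, fun x => (abs_add_le _ _).trans (add_le_add (hC x) (hD x))⟩
  zero_mem' := ⟨measurable_const, 0, fun x => by simp⟩
  smul_mem' := by
    rintro c f ⟨hf, C, hC⟩
    refine ⟨hf.const_smul c, |c| * C, fun x => ?_⟩
    rw [Pi.smul_apply, smul_eq_mul, abs_mul]
    exact mul_le_mul_of_nonneg_left (hC x) (abs_nonneg _)

variable {α : Type*} [MeasurableSpace α]

/-- the Riesz product -/
noncomputable def rp {m : ℕ} (a : ℝ) (V : Fin m → α → ℝ) (e : Fin m → Bool) (x : α) : ℂ :=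
  ∏ k, (1 + ((sg (e k) * a * V k x : ℝ) : ℂ) * Complex.I)

lemma rp_measurable {m : ℕ} (a : ℝ) (V : Fin m → α → ℝ) (hV : ∀ k, Measurable (V k))
    (e : Fin m → Bool) : Measurable (rp a V e) := by
  unfold rp
  apply Finset.measurable_prod
  intro k _
  exact measurable_const.add
    ((Complex.measurable_ofReal.comp ((hV k).const_mul (sg (e k) * a))).mul_const _)

lemma rp_bound {m : ℕ} (hm : 0 < m) (V : Fin m → α → ℝ) (hV : ∀ k x, |V k x| ≤ 1)
    (e : Fin m → Bool) (x : α) : ‖rp (1 / Real.sqrt m) V e x‖ ≤ 2 := by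
  have hm' : (0 : ℝ) < m := by exact_mod_cast hm
  have h1 : ∀ k, ‖(1 + ((sg (e k) * (1 / Real.sqrt m) * V k x : ℝ) : ℂ) * Complex.I)‖ ≤
      Real.exp (1 / (2 * m)) := by
    intro k
    set t := sg (e k) * (1 / Real.sqrt m) * V k x with ht
    have h2 : t ^ 2 ≤ 1 / m := by
      rw [ht, mul_pow, mul_pow]
      have h3 : sg (e k) ^ 2 = 1 := by rw [pow_two, sg_mul_self]
      have h4 : (1 / Real.sqrt m) ^ 2 = 1 / m := by
        rw [div_pow, one_pow, Real.sq_sqrt hm'.le]
      have h5 : V k x ^ 2 ≤ 1 := by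
        rw [← sq_abs]
        exact pow_le_one₀ (abs_nonneg _) (hV k x)
      rw [h3, h4, one_mul]
      exact mul_le_of_le_one_right (by positivity) h5
    have h6 : ‖(1 + (t : ℂ) * Complex.I)‖ ^ 2 = 1 + t ^ 2 := by
      rw [← Complex.normSq_eq_norm_sq, Complex.normSq_apply]
      simp
      ring
    have h7 : ‖(1 + (t : ℂ) * Complex.I)‖ ^ 2 ≤ Real.exp (1 / (2 * m)) ^ 2 := by
      rw [h6, ← Real.exp_nat_mul]
      have h8 : ((2 : ℕ) : ℝ) * (1 / (2 * m)) = 1 / m := by field_simp; norm_num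
      rw [h8]
      have := Real.add_one_le_exp (1 / (m : ℝ))
      linarith
    exact (sq_le_sq₀ (norm_nonneg _) (Real.exp_pos _).le).1 h7
  calc ‖rp (1 / Real.sqrt m) V e x‖ = ∏ k, ‖(1 + ((sg (e k) * (1 / Real.sqrt m) * V k x : ℝ) : ℂ) * Complex.I)‖ := by
        unfold rp
        rw [norm_prod]
    _ ≤ ∏ _k : Fin m, Real.exp (1 / (2 * m)) :=
        Finset.prod_le_prod (fun _ _ => norm_nonneg _) fun k _ => h1 k
    _ = Real.exp (1 / 2) := by
        rw [Finset.prod_const, Finset.card_univ, Fintype.card_fin, ← Real.exp_nat_mul]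
        congr 1
        field_simp
    _ ≤ 2 := by
        have h2 : Real.exp (1 / 2) ^ 2 = Real.exp 1 := by
          rw [← Real.exp_nat_mul]; norm_num
        have h3 := Real.exp_one_lt_d9
        nlinarith [Real.exp_pos (1 / 2 : ℝ)]

lemma rp_sum {m : ℕ} (a : ℝ) (V : Fin m → α → ℝ) (k : Fin m) (x : α) :
    ∑ e : Fin m → Bool, (sg (e k) : ℂ) * rp a V e x = 2 ^ m * ((a * V k x : ℝ) : ℂ) * Complex.I := by
  classical
  let g : Fin m → Bool → ℂ := fun j b => (if j = k then (sg b : ℂ) else 1) *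
    (1 + ((sg b * a * V j x : ℝ) : ℂ) * Complex.I)
  have h1 : ∀ e : Fin m → Bool, (sg (e k) : ℂ) * rp a V e x = ∏ j, g j (e j) := by
    intro e
    simp only [g, Finset.prod_mul_distrib, rp]
    congr 1
    rw [Finset.prod_ite_eq' Finset.univ k (fun j => ((sg (e j) : ℝ) : ℂ))]
    simp
  rw [Finset.sum_congr rfl fun e _ => h1 e]
  have h2 := (Finset.prod_univ_sum (fun _ : Fin m => (Finset.univ : Finset Bool)) g).symm
  rw [Fintype.piFinset_univ] at h2
  rw [h2, ← Finset.mul_prod_erase _ _ (Finset.mem_univ k)]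
  have h3 : ∑ b : Bool, g k b = 2 * ((a * V k x : ℝ) : ℂ) * Complex.I := by
    simp [g, sg]
    ring
  have h4 : ∀ j ∈ Finset.univ.erase k, ∑ b : Bool, g j b = 2 := by
    intro j hj
    have hj' : j ≠ k := Finset.ne_of_mem_erase hj
    simp [g, sg, hj']
    ring
  rw [h3, Finset.prod_congr rfl h4, Finset.prod_const, Finset.card_erase_of_mem (Finset.mem_univ k),
    Finset.card_univ, Fintype.card_fin]
  have hm : 0 < m := k.pos
  obtain ⟨n, rfl⟩ : ∃ n, m = n + 1 := ⟨m - 1, by omega⟩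
  rw [Nat.add_sub_cancel, pow_succ]
  ring

/-- Functionals on the bounded functions with bounded sums with signs. -/
theorem cotype {m : ℕ} (hm : 0 < m) (θ : Fin m → (BM α →ₗ[ℝ] ℝ)) (M : ℝ)
    (hθ : ∀ (e : Fin m → Bool) (z : BM α), (∀ x, |z.1 x| ≤ 1) → ∑ k, sg (e k) * θ k z ≤ M)
    (V : Fin m → BM α) (hV : ∀ k x, |(V k).1 x| ≤ 1) (b : ℝ) (hb : ∀ k, b ≤ θ k (V k)) :
    Real.sqrt m * b ≤ 2 * M := by
  classical
  have hm' : (0 : ℝ) < m := by exact_mod_cast hm
  set a : ℝ := 1 / Real.sqrt m with ha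
  have hsq : 0 < Real.sqrt m := Real.sqrt_pos.2 hm'
  let z : (Fin m → Bool) → BM α := fun e => ⟨fun x => (rp a (fun k => (V k).1) e x).im,
    Complex.measurable_im.comp (rp_measurable a _ (fun k => (V k).2.1) e), 2, fun x =>
      (Complex.abs_im_le_norm _).trans (rp_bound hm _ hV e x)⟩
  have hz : ∀ e x, |(z e).1 x| ≤ 2 := fun e x =>
    (Complex.abs_im_le_norm _).trans (rp_bound hm _ hV e x)
  have h1 : ∀ k, ∑ e : Fin m → Bool, sg (e k) • z e = ((2 : ℝ) ^ m * a) • V k := by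
    intro k
    apply Subtype.ext
    funext x
    have h2 := congrArg Complex.im (rp_sum a (fun k => (V k).1) k x)
    rw [Complex.im_sum] at h2
    have h3 : (2 ^ m * ((a * (V k).1 x : ℝ) : ℂ) * Complex.I).im = 2 ^ m * (a * (V k).1 x) := by
      have : (2 ^ m * ((a * (V k).1 x : ℝ) : ℂ) * Complex.I) =
          ((2 ^ m * (a * (V k).1 x) : ℝ) : ℂ) * Complex.I := by push_cast; ring
      rw [this, Complex.im_ofReal_mul, Complex.I_im, mul_one]
    rw [h3] at h2
    have h4 : ((∑ e : Fin m → Bool, sg (e k) • z e : BM α) : α → ℝ) x =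
        ∑ e : Fin m → Bool, ((sg (e k) : ℂ) * rp a (fun k => (V k).1) e x).im := by
      rw [Submodule.coe_sum, Finset.sum_apply]
      refine Finset.sum_congr rfl fun e _ => ?_
      rw [Complex.im_ofReal_mul]
      rfl
    rw [h4, h2]
    change 2 ^ m * (a * (V k).1 x) = (2 ^ m * a) * (V k).1 x
    ring
  have h2 : ∀ k, ∑ e : Fin m → Bool, sg (e k) * θ k (z e) = ((2 : ℝ) ^ m * a) * θ k (V k) := by
    intro k
    rw [← smul_eq_mul, ← map_smul, ← h1 k, map_sum]
    refine Finset.sum_congr rfl fun e _ => ?_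
    rw [map_smul, smul_eq_mul]
  have h3 : ∀ e, ∑ k, sg (e k) * θ k (z e) ≤ 2 * M := by
    intro e
    have h4 := hθ e ((1 / 2 : ℝ) • z e) (fun x => by
      change |(1 / 2 : ℝ) * (z e).1 x| ≤ 1
      rw [abs_mul, abs_of_pos (by norm_num : (0 : ℝ) < 1 / 2)]
      linarith [hz e x])
    have h5 : ∑ k, sg (e k) * θ k ((1 / 2 : ℝ) • z e) = (1 / 2) * ∑ k, sg (e k) * θ k (z e) := by
      rw [Finset.mul_sum]
      refine Finset.sum_congr rfl fun k _ => ?_
      rw [map_smul, smul_eq_mul]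
      ring
    rw [h5] at h4
    linarith
  have h4 : ((2 : ℝ) ^ m * a) * ∑ k, θ k (V k) ≤ 2 ^ m * (2 * M) := by
    calc ((2 : ℝ) ^ m * a) * ∑ k, θ k (V k) = ∑ k, ∑ e : Fin m → Bool, sg (e k) * θ k (z e) := by
          rw [Finset.mul_sum]
          exact Finset.sum_congr rfl fun k _ => (h2 k).symm
      _ = ∑ e : Fin m → Bool, ∑ k, sg (e k) * θ k (z e) := Finset.sum_comm
      _ ≤ ∑ _e : Fin m → Bool, 2 * M := Finset.sum_le_sum fun e _ => h3 e
      _ = 2 ^ m * (2 * M) := by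
          rw [Finset.sum_const, Finset.card_univ, Fintype.card_fun, Fintype.card_bool,
            Fintype.card_fin, nsmul_eq_mul]
          push_cast
          ring
  have h5 : (m : ℝ) * b ≤ ∑ k, θ k (V k) := by
    calc (m : ℝ) * b = ∑ _k : Fin m, b := by
          rw [Finset.sum_const, Finset.card_univ, Fintype.card_fin, nsmul_eq_mul]
      _ ≤ _ := Finset.sum_le_sum fun k _ => hb k
  have h6 : a * ∑ k, θ k (V k) ≤ 2 * M := by
    have h7 : (0 : ℝ) < 2 ^ m := by positivity
    have h8 : (2 : ℝ) ^ m * (a * ∑ k, θ k (V k)) ≤ 2 ^ m * (2 * M) := by rw [← mul_assoc]; exact h4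
    exact le_of_mul_le_mul_left h8 h7
  have h7 : Real.sqrt m * b = a * (m * b) := by
    have h8 : Real.sqrt m * Real.sqrt m = m := Real.mul_self_sqrt hm'.le
    rw [ha, one_div, ← div_eq_inv_mul, eq_div_iff hsq.ne']
    calc Real.sqrt m * b * Real.sqrt m = (Real.sqrt m * Real.sqrt m) * b := by ring
      _ = m * b := by rw [h8]
  rw [h7]
  refine le_trans (mul_le_mul_of_nonneg_left h5 (by positivity)) h6

end Pool.Agent.X304.Ec
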