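import Pool.Agent.X304.Ec.Phi

/-!
# Small disjoint subsets
-/

set_option autoImplicit false

open Set MeasureTheory Filter Topology Metric
open scoped ENNReal

namespace Pool.Agent.X304.Ec

/-- a cell of the grid -/
def cell (n : ℕ) (i : ℕ) : Set ℝ := Ico ((i : ℝ) / (n + 1)) (((i : ℝ) + 1) / (n + 1))

lemma cell_disj (n : ℕ) : Pairwise (Function.onFun Disjoint (cell n)) := by
  intro i j hij
  have key : ∀ i j : ℕ, i < j → Disjoint (cell n i) (cell n j) := by
    intro i j h
    rw [Set.disjoint_left]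
    intro x hx hx'
    have h1 : ((i : ℝ) + 1) ≤ j := by exact_mod_cast h
    have h0 : (0 : ℝ) < (n : ℝ) + 1 := by positivity
    have h2 : ((i : ℝ) + 1) / (n + 1) ≤ (j : ℝ) / (n + 1) := by gcongr
    have := hx.2
    have := hx'.1
    linarith
  rcases lt_or_gt_of_ne hij with h | h
  · exact key i j h
  · exact (key j i h).symm

lemma cell_vol (n i : ℕ) : volume (cell n i) = ENNReal.ofReal (1 / ((n : ℝ) + 1)) := by
  rw [cell, Real.volume_Ico]
  congr 1
  ring

lemma cell_cover (n : ℕ) : Ioo (0 : ℝ) 1 ⊆ ⋃ i ∈ Finset.range (n + 1), cell n i := by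
  intro x hx
  have h0 : (0 : ℝ) < (n : ℝ) + 1 := by positivity
  have h1 : 0 ≤ x * (n + 1) := by have := hx.1; positivity
  simp only [mem_iUnion, Finset.mem_range, exists_prop]
  refine ⟨⌊x * (n + 1)⌋₊, ?_, ?_, ?_⟩
  · rw [Nat.floor_lt h1]
    push_cast
    have := hx.2
    nlinarith
  · rw [div_le_iff₀ h0]
    exact Nat.floor_le h1
  · rw [lt_div_iff₀ h0]
    exact Nat.lt_floor_add_one _

/-- Many disjoint subsets of positive and small measure. -/
lemma exists_parts (A : Set ℝ) (hA : MeasurableSet A) (hA1 : A ⊆ Ioo 0 1) (hA0 : volume A ≠ 0)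
    (m : ℕ) (δ : ℝ) (hδ : 0 < δ) : ∃ J : Fin m → Set ℝ, (∀ k, MeasurableSet (J k)) ∧
      (∀ k, J k ⊆ A) ∧ Pairwise (Function.onFun Disjoint J) ∧ (∀ k, volume (J k) ≠ 0) ∧
      ∀ k, volume (J k) ≤ ENNReal.ofReal δ := by
  classical
  have hfin : volume A ≠ ∞ := ((measure_mono hA1).trans_lt (by simp)).ne
  have hpos : 0 < (volume A).toReal := ENNReal.toReal_pos hA0 hfin
  -- the number of cells
  obtain ⟨n, hn⟩ := exists_nat_ge (max (m / (volume A).toReal) (1 / δ))
  have hn1 : (m : ℝ) / (volume A).toReal ≤ n := (le_max_left _ _).trans hn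
  have hn2 : 1 / δ ≤ n := (le_max_right _ _).trans hn
  have h0 : (0 : ℝ) < (n : ℝ) + 1 := by positivity
  let s : Finset ℕ := (Finset.range (n + 1)).filter fun i => volume (A ∩ cell n i) ≠ 0
  have hcard : m ≤ s.card := by
    have h1 : volume A ≤ ∑ i ∈ s, volume (A ∩ cell n i) := by
      calc volume A ≤ volume (⋃ i ∈ Finset.range (n + 1), A ∩ cell n i) := by
            apply measure_mono
            intro x hx
            have := cell_cover n (hA1 hx)
            simp only [mem_iUnion, exists_prop] at this ⊢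
            obtain ⟨i, hi, hxi⟩ := this
            exact ⟨i, hi, hx, hxi⟩
        _ ≤ ∑ i ∈ Finset.range (n + 1), volume (A ∩ cell n i) := measure_biUnion_finset_le _ _
        _ = ∑ i ∈ s, volume (A ∩ cell n i) := by
            rw [Finset.sum_filter_ne_zero]
    have h2 : ∑ i ∈ s, volume (A ∩ cell n i) ≤ s.card * ENNReal.ofReal (1 / ((n : ℝ) + 1)) := by
      rw [← nsmul_eq_mul]
      apply Finset.sum_le_card_nsmul
      intro i _
      rw [← cell_vol n i]
      exact measure_mono inter_subset_right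
    have h3 := h1.trans h2
    have h4 : (volume A).toReal ≤ s.card * (1 / ((n : ℝ) + 1)) := by
      have h5 := ENNReal.toReal_mono (ENNReal.mul_ne_top (ENNReal.natCast_ne_top _) ENNReal.ofReal_ne_top) h3
      rwa [ENNReal.toReal_mul, ENNReal.toReal_natCast, ENNReal.toReal_ofReal (by positivity)] at h5
    have h5 : (m : ℝ) ≤ s.card := by
      rw [div_le_iff₀ hpos] at hn1
      rw [mul_one_div, le_div_iff₀ h0] at h4
      nlinarith
    exact_mod_cast h5
  obtain ⟨t, hts, htc⟩ := Finset.exists_subset_card_eq hcard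
  refine ⟨fun k => A ∩ cell n (t.orderEmbOfFin htc k), fun k => hA.inter measurableSet_Ico,
    fun k => inter_subset_left, ?_, ?_, ?_⟩
  · intro k l hkl
    exact (cell_disj n ((t.orderEmbOfFin htc).injective.ne hkl)).mono inter_subset_right
      inter_subset_right
  · intro k
    have h1 := hts (t.orderEmbOfFin_mem htc k)
    exact (Finset.mem_filter.1 h1).2
  · intro k
    refine (measure_mono inter_subset_right).trans ?_
    rw [cell_vol]
    apply ENNReal.ofReal_le_ofReal
    rw [div_le_iff₀ h0]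
    rw [div_le_iff₀ hδ] at hn2
    nlinarith

end Pool.Agent.X304.Ec
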