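import Pool.Agent.X304.Ec.RieszProd

/-!
# The space `L_1 + L_∞` on `(0, ∞)`
-/

set_option autoImplicit false

open Set MeasureTheory Filter Topology
open scoped ENNReal

namespace Pool.Agent.X304.Ec

/-- Lebesgue measure on `(0, ∞)` -/
noncomputable abbrev mu : Measure ℝ := volume.restrict (Ioi 0)

/-- The subspace `L_1 + L_∞` of the space of (classes of) measurable functions on `(0, ∞)`. -/
noncomputable def sumSub : Submodule ℝ (ℝ →ₘ[mu] ℝ) :=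
  Lp.LpSubmodule ℝ ℝ 1 mu ⊔ Lp.LpSubmodule ℝ ℝ ⊤ mu

/-- The space `L_1 + L_∞` on `(0, ∞)`. -/
def SumSpace : Type := sumSub

noncomputable instance : AddCommGroup SumSpace := inferInstanceAs (AddCommGroup sumSub)

noncomputable instance : Module ℝ SumSpace := inferInstanceAs (Module ℝ sumSub)

namespace SumSpace

/-- The class of measurable functions. -/
def fn (x : SumSpace) : ℝ →ₘ[mu] ℝ := (x : sumSub).1

/-- The numbers `‖u‖ + ‖v‖` for the decompositions `x = u + v`, `u ∈ L_1`, `v ∈ L_∞`. -/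
def decs (x : SumSpace) : Set ℝ :=
  {r | ∃ (u : Lp ℝ 1 mu) (v : Lp ℝ ⊤ mu), x.fn = (u : ℝ →ₘ[mu] ℝ) + (v : ℝ →ₘ[mu] ℝ) ∧
    r = ‖u‖ + ‖v‖}

/-- The norm `‖x‖ = inf (‖u‖_1 + ‖v‖_∞)`, `x = u + v`. -/
noncomputable instance : Norm SumSpace := ⟨fun x => sInf x.decs⟩

lemma norm_def (x : SumSpace) : ‖x‖ = sInf x.decs := rfl

lemma fn_add (x y : SumSpace) : (x + y).fn = x.fn + y.fn := rfl

lemma fn_smul (c : ℝ) (x : SumSpace) : (c • x).fn = c • x.fn := rfl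

lemma fn_zero : (0 : SumSpace).fn = 0 := rfl

lemma fn_injective : Function.Injective fn := fun _ _ h => Subtype.ext h

lemma exists_dec (x : SumSpace) : ∃ (u : Lp ℝ 1 mu) (v : Lp ℝ ⊤ mu),
    x.fn = (u : ℝ →ₘ[mu] ℝ) + (v : ℝ →ₘ[mu] ℝ) := by
  obtain ⟨u, hu, v, hv, h⟩ := Submodule.mem_sup.1 x.2
  exact ⟨⟨u, hu⟩, ⟨v, hv⟩, h.symm⟩

lemma decs_nonempty (x : SumSpace) : x.decs.Nonempty := by
  obtain ⟨u, v, h⟩ := x.exists_dec
  exact ⟨_, u, v, h, rfl⟩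

lemma decs_bdd (x : SumSpace) : BddBelow x.decs := by
  refine ⟨0, ?_⟩
  rintro r ⟨u, v, -, rfl⟩
  positivity

lemma norm_nonneg' (x : SumSpace) : 0 ≤ ‖x‖ := by
  apply Real.sInf_nonneg
  rintro r ⟨u, v, -, rfl⟩
  positivity

lemma norm_le_dec (x : SumSpace) (u : Lp ℝ 1 mu) (v : Lp ℝ ⊤ mu)
    (h : x.fn = (u : ℝ →ₘ[mu] ℝ) + (v : ℝ →ₘ[mu] ℝ)) : ‖x‖ ≤ ‖u‖ + ‖v‖ :=
  csInf_le x.decs_bdd ⟨u, v, h, rfl⟩

lemma exists_dec_lt (x : SumSpace) {r : ℝ} (hr : ‖x‖ < r) : ∃ (u : Lp ℝ 1 mu) (v : Lp ℝ ⊤ mu),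
    x.fn = (u : ℝ →ₘ[mu] ℝ) + (v : ℝ →ₘ[mu] ℝ) ∧ ‖u‖ + ‖v‖ < r := by
  obtain ⟨s, ⟨u, v, h, rfl⟩, hs⟩ := exists_lt_of_csInf_lt x.decs_nonempty hr
  exact ⟨u, v, h, hs⟩

lemma le_norm_of (x : SumSpace) (r : ℝ) (h : ∀ (u : Lp ℝ 1 mu) (v : Lp ℝ ⊤ mu),
    x.fn = (u : ℝ →ₘ[mu] ℝ) + (v : ℝ →ₘ[mu] ℝ) → r ≤ ‖u‖ + ‖v‖) : r ≤ ‖x‖ := by
  apply le_csInf x.decs_nonempty
  rintro s ⟨u, v, h1, rfl⟩
  exact h u v h1

/-! ### integrals over sets of finite measure -/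

lemma integrableOn_one (u : Lp ℝ 1 mu) (J : Set ℝ) : IntegrableOn (u : ℝ → ℝ) J mu :=
  (L1.integrable_coeFn u).integrableOn

lemma norm_le_top (v : Lp ℝ ⊤ mu) : ∀ᵐ t ∂mu, ‖(v : ℝ → ℝ) t‖ ≤ ‖v‖ := by
  have h1 := ae_le_eLpNormEssSup (f := (v : ℝ → ℝ)) (μ := mu)
  filter_upwards [h1] with t ht
  have h2 : ‖v‖ = (eLpNormEssSup (v : ℝ → ℝ) mu).toReal := by
    rw [Lp.norm_def, eLpNorm_exponent_top]
  rw [h2, ← toReal_enorm]
  apply ENNReal.toReal_mono _ ht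
  have h3 := Lp.eLpNorm_ne_top v
  rwa [eLpNorm_exponent_top] at h3

lemma integrableOn_top (v : Lp ℝ ⊤ mu) {J : Set ℝ} (hJ : mu J ≠ ∞) :
    IntegrableOn (v : ℝ → ℝ) J mu := by
  refine IntegrableOn.of_bound hJ.lt_top (Lp.aestronglyMeasurable v).restrict ‖v‖ ?_
  exact ae_restrict_of_ae (norm_le_top v)

lemma fn_ae {x : SumSpace} {u : Lp ℝ 1 mu} {v : Lp ℝ ⊤ mu}
    (h : x.fn = (u : ℝ →ₘ[mu] ℝ) + (v : ℝ →ₘ[mu] ℝ)) :
    (x.fn : ℝ → ℝ) =ᵐ[mu] fun t => (u : ℝ → ℝ) t + (v : ℝ → ℝ) t := by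
  rw [h]
  exact AEEqFun.coeFn_add _ _

lemma integrableOn_fn (x : SumSpace) {J : Set ℝ} (hJ : mu J ≠ ∞) :
    IntegrableOn (x.fn : ℝ → ℝ) J mu := by
  obtain ⟨u, v, h⟩ := x.exists_dec
  have h1 : (x.fn : ℝ → ℝ) =ᵐ[mu.restrict J] fun t => (u : ℝ → ℝ) t + (v : ℝ → ℝ) t :=
    ae_restrict_of_ae (fn_ae h)
  exact ((integrableOn_one u J).add (integrableOn_top v hJ)).congr h1.symm

lemma setIntegral_norm_le (x : SumSpace) {J : Set ℝ} (hJ : mu J ≠ ∞) (u : Lp ℝ 1 mu)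
    (v : Lp ℝ ⊤ mu) (h : x.fn = (u : ℝ →ₘ[mu] ℝ) + (v : ℝ →ₘ[mu] ℝ)) :
    ∫ t in J, ‖(x.fn : ℝ → ℝ) t‖ ∂mu ≤ (∫ t in J, ‖(u : ℝ → ℝ) t‖ ∂mu) + (mu J).toReal * ‖v‖ := by
  have h1 := (integrableOn_one u J).norm
  have h2 := (integrableOn_top v hJ).norm
  calc ∫ t in J, ‖(x.fn : ℝ → ℝ) t‖ ∂mu ≤
      ∫ t in J, (‖(u : ℝ → ℝ) t‖ + ‖(v : ℝ → ℝ) t‖) ∂mu := by
        apply integral_mono_ae (integrableOn_fn x hJ).norm (h1.add h2)
        filter_upwards [ae_restrict_of_ae (s := J) (fn_ae h)] with t ht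
        rw [ht]
        exact norm_add_le _ _
    _ = (∫ t in J, ‖(u : ℝ → ℝ) t‖ ∂mu) + ∫ t in J, ‖(v : ℝ → ℝ) t‖ ∂mu := integral_add h1 h2
    _ ≤ _ := by
        gcongr
        calc ∫ t in J, ‖(v : ℝ → ℝ) t‖ ∂mu ≤ ∫ _t in J, ‖v‖ ∂mu := by
              apply integral_mono_ae h2 (integrableOn_const hJ)
              exact ae_restrict_of_ae (norm_le_top v)
          _ = (mu J).toReal * ‖v‖ := by
              rw [setIntegral_const, smul_eq_mul]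
              rfl

lemma norm_one_eq (u : Lp ℝ 1 mu) : ‖u‖ = ∫ t, ‖(u : ℝ → ℝ) t‖ ∂mu := L1.norm_eq_integral_norm u

/-- The integral over a set of finite measure. -/
lemma setIntegral_norm_le' (x : SumSpace) {J : Set ℝ} (hJ : mu J ≠ ∞) :
    ∫ t in J, ‖(x.fn : ℝ → ℝ) t‖ ∂mu ≤ (1 + (mu J).toReal) * ‖x‖ := by
  have h0 : (0 : ℝ) < 1 + (mu J).toReal := by positivity
  rw [← div_le_iff₀' h0]
  apply le_norm_of
  intro u v h
  rw [div_le_iff₀' h0]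
  have h1 := setIntegral_norm_le x hJ u v h
  have h2 : ∫ t in J, ‖(u : ℝ → ℝ) t‖ ∂mu ≤ ‖u‖ := by
    rw [norm_one_eq]
    exact setIntegral_le_integral (L1.integrable_coeFn u).norm (ae_of_all _ fun _ => norm_nonneg _)
  have h3 : 0 ≤ (mu J).toReal * ‖u‖ := by positivity
  have h4 : 0 ≤ ‖v‖ := norm_nonneg v
  nlinarith

lemma eq_zero_of_norm (x : SumSpace) (h : ‖x‖ = 0) : x = 0 := by
  apply fn_injective
  rw [fn_zero]
  apply AEEqFun.ext
  refine EventuallyEq.trans ?_ AEEqFun.coeFn_zero.symm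
  have h1 : ∀ n : ℕ, ∀ᵐ t ∂mu, t ∈ Ioc (0 : ℝ) n → (x.fn : ℝ → ℝ) t = 0 := by
    intro n
    have hJ : mu (Ioc (0 : ℝ) n) ≠ ∞ :=
      ((Measure.restrict_apply_le _ _).trans_lt (by simp)).ne
    have h2 := setIntegral_norm_le' x hJ
    rw [h, mul_zero] at h2
    have h3 : ∫ t in Ioc (0 : ℝ) n, ‖(x.fn : ℝ → ℝ) t‖ ∂mu = 0 :=
      le_antisymm h2 (integral_nonneg fun _ => norm_nonneg _)
    rw [setIntegral_eq_zero_iff_of_nonneg_ae (ae_of_all _ fun _ => norm_nonneg _)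
      (integrableOn_fn x hJ).norm] at h3
    rw [← ae_restrict_iff' measurableSet_Ioc]
    filter_upwards [h3] with t ht
    simpa using ht
  have h2 : ∀ᵐ t ∂mu, t ∈ Ioi (0 : ℝ) := ae_restrict_mem measurableSet_Ioi
  filter_upwards [ae_all_iff.2 h1, h2] with t ht ht0
  obtain ⟨n, hn⟩ := exists_nat_ge t
  exact ht n ⟨ht0, hn⟩

lemma core : NormedSpace.Core ℝ SumSpace where
  norm_nonneg := norm_nonneg'
  norm_smul c x := by
    have key : ∀ (c : ℝ) (x : SumSpace), ‖c • x‖ ≤ |c| * ‖x‖ := by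
      intro c x
      by_cases hc : c = 0
      · subst hc
        have := norm_le_dec ((0 : ℝ) • x) 0 0 (by
          rw [fn_smul, zero_smul]
          simp)
        simpa using this
      · have hc' : 0 < |c| := abs_pos.2 hc
        rw [← div_le_iff₀' hc']
        apply le_norm_of
        intro u v h
        rw [div_le_iff₀' hc']
        have := norm_le_dec (c • x) (c • u) (c • v) (by
          rw [fn_smul, h, smul_add]
          rfl)
        have e1 : ‖c • u‖ = |c| * ‖u‖ := by rw [norm_smul, Real.norm_eq_abs]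
        have e2 : ‖c • v‖ = |c| * ‖v‖ := by rw [norm_smul, Real.norm_eq_abs]
        rw [e1, e2] at this
        linarith
    rw [Real.norm_eq_abs]
    apply le_antisymm (key c x)
    by_cases hc : c = 0
    · subst hc
      simpa using norm_nonneg' _
    · have h1 := key c⁻¹ (c • x)
      rw [smul_smul, inv_mul_cancel₀ hc, one_smul, abs_inv] at h1
      have hc' : 0 < |c| := abs_pos.2 hc
      rw [inv_mul_eq_div, le_div_iff₀' hc'] at h1
      exact h1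
  norm_triangle x y := by
    apply le_of_forall_pos_le_add
    intro ε hε
    obtain ⟨u, v, h1, h2⟩ := exists_dec_lt x (show ‖x‖ < ‖x‖ + ε / 2 by linarith)
    obtain ⟨u', v', h1', h2'⟩ := exists_dec_lt y (show ‖y‖ < ‖y‖ + ε / 2 by linarith)
    have h3 := norm_le_dec (x + y) (u + u') (v + v') (by
      rw [fn_add, h1, h1']
      push_cast
      abel)
    have h4 := norm_add_le u u'
    have h5 := norm_add_le v v'
    linarith
  norm_eq_zero_iff x := by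
    refine ⟨eq_zero_of_norm x, ?_⟩
    rintro rfl
    apply le_antisymm _ (norm_nonneg' _)
    have := norm_le_dec 0 0 0 (by rw [fn_zero]; simp)
    simpa using this

noncomputable instance : NormedAddCommGroup SumSpace := NormedAddCommGroup.ofCore core

noncomputable instance : NormedSpace ℝ SumSpace := NormedSpace.ofCore core

end SumSpace

end Pool.Agent.X304.Ec
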